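import Pool.Agent.Lib.MP_bf61d2_nt.Places

set_option autoImplicit false

/-!
The sum of `q_v ^ (-1 - η)` over the finite places of a number field.
-/

namespace Pool.Agent.Lib.MP_bf61d2_nt.Edge

open Filter Topology NumberField IsDedekindDomain

variable {K : Type*} [Field K] [NumberField K]

section Ideals

variable (S : Finset (HeightOneSpectrum (𝓞 K)))

/-- The ideal with given exponents. -/
noncomputable def idl (e : S → ℕ) : Ideal (𝓞 K) := ∏ i : S, i.1.asIdeal ^ e i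

lemma pow_dvd_idl_iff (e : S → ℕ) (i : S) (k : ℕ) : i.1.asIdeal ^ k ∣ idl S e ↔ k ≤ e i := by
  classical
  have hprime : Prime i.1.asIdeal := i.1.prime
  have hne : i.1.asIdeal ≠ 0 := i.1.ne_bot
  have hsplit : idl S e = i.1.asIdeal ^ e i * ∏ j ∈ Finset.univ.erase i, j.1.asIdeal ^ e j := by
    rw [idl]
    exact (Finset.mul_prod_erase _ (fun j : S => j.1.asIdeal ^ e j) (Finset.mem_univ i)).symm
  constructor
  · intro h
    by_contra hcon
    have hlt : e i + 1 ≤ k := by omega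
    have h1 : i.1.asIdeal ^ (e i + 1) ∣ idl S e := (pow_dvd_pow _ hlt).trans h
    rw [hsplit, pow_succ] at h1
    have h2 := (mul_dvd_mul_iff_left (pow_ne_zero (e i) hne)).mp h1
    obtain ⟨j, hj, h3⟩ := (Prime.dvd_finsetProd_iff hprime _).mp h2
    have h4 := hprime.dvd_of_dvd_pow h3
    have h5 : j.1.asIdeal ≤ i.1.asIdeal := Ideal.le_of_dvd h4
    have h6 : j.1.asIdeal = i.1.asIdeal :=
      j.1.isMaximal.eq_of_le i.1.isPrime.ne_top h5
    exact (Finset.ne_of_mem_erase hj) (Subtype.ext (HeightOneSpectrum.ext h6))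
  · intro h
    rw [hsplit]
    exact (pow_dvd_pow _ h).mul_right _

lemma idl_injective : Function.Injective (idl S) := by
  intro e e' h
  ext i
  apply le_antisymm
  · rw [← pow_dvd_idl_iff S e' i, ← h, pow_dvd_idl_iff]
  · rw [← pow_dvd_idl_iff S e i, h, pow_dvd_idl_iff]

lemma absNorm_idl (e : S → ℕ) : Ideal.absNorm (idl S e) = ∏ i : S, nm i.1 ^ e i := by
  rw [idl, map_prod]
  refine Finset.prod_congr rfl fun i _ => ?_
  rw [map_pow]; rfl

end Ideals

/-- The number of ideals of given norm. -/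
noncomputable def idn (K : Type*) [Field K] [NumberField K] (n : ℕ) : ℕ :=
  Nat.card {I : Ideal (𝓞 K) // Ideal.absNorm I = n}

lemma sum_ideals_le (σ : ℝ) (hs : Summable fun n : ℕ => (idn K n : ℝ) * (n : ℝ) ^ (-σ))
    (T : Finset (Ideal (𝓞 K))) :
    ∑ I ∈ T, (Ideal.absNorm I : ℝ) ^ (-σ) ≤ ∑' n : ℕ, (idn K n : ℝ) * (n : ℝ) ^ (-σ) := by
  classical
  rw [← Finset.sum_fiberwise_of_maps_to (g := fun I => Ideal.absNorm I)
    (t := T.image fun I => Ideal.absNorm I) (fun I hI => Finset.mem_image_of_mem _ hI)]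
  calc ∑ n ∈ T.image (fun I => Ideal.absNorm I), ∑ I ∈ T with Ideal.absNorm I = n,
        (Ideal.absNorm I : ℝ) ^ (-σ)
      ≤ ∑ n ∈ T.image (fun I => Ideal.absNorm I), (idn K n : ℝ) * (n : ℝ) ^ (-σ) := by
        refine Finset.sum_le_sum fun n _ => ?_
        have e : ∑ I ∈ T with Ideal.absNorm I = n, (Ideal.absNorm I : ℝ) ^ (-σ) =
            ∑ I ∈ T with Ideal.absNorm I = n, (n : ℝ) ^ (-σ) :=
          Finset.sum_congr rfl fun I hI => by rw [(Finset.mem_filter.mp hI).2]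
        rw [e, Finset.sum_const, nsmul_eq_mul]
        refine mul_le_mul_of_nonneg_right ?_ (by positivity)
        have hfin : Finite {I : Ideal (𝓞 K) // Ideal.absNorm I = n} :=
          Ideal.finite_setOfPred_absNorm_eq n
        have : Fintype {I : Ideal (𝓞 K) // Ideal.absNorm I = n} := Fintype.ofFinite _
        rw [idn, Nat.card_eq_fintype_card]
        norm_cast
        rw [← Fintype.card_coe]
        exact Fintype.card_le_of_injective
          (fun I => ⟨I.1, (Finset.mem_filter.mp I.2).2⟩)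
          (fun I J h => Subtype.ext (by simpa using h))
    _ ≤ _ := hs.sum_le_tsum _ fun n _ => by positivity

lemma prod_geom_le (σ : ℝ) (hs : Summable fun n : ℕ => (idn K n : ℝ) * (n : ℝ) ^ (-σ))
    (S : Finset (HeightOneSpectrum (𝓞 K))) (M : ℕ) :
    ∏ i : S, ∑ k ∈ Finset.range M, ((nm i.1 : ℝ) ^ (-σ)) ^ k ≤
      ∑' n : ℕ, (idn K n : ℝ) * (n : ℝ) ^ (-σ) := by
  classical
  rw [Finset.prod_univ_sum]
  have h1 : ∑ e ∈ Fintype.piFinset (fun _ : S => Finset.range M), ∏ i : S, ((nm i.1 : ℝ) ^ (-σ)) ^ e i =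
      ∑ I ∈ (Fintype.piFinset (fun _ : S => Finset.range M)).image (idl S),
        (Ideal.absNorm I : ℝ) ^ (-σ) := by
    rw [Finset.sum_image (fun a _ b _ h => idl_injective S h)]
    refine Finset.sum_congr rfl fun e _ => ?_
    rw [absNorm_idl]
    push_cast
    rw [← Real.finsetProd_rpow _ _ (fun i _ => by positivity)]
    refine Finset.prod_congr rfl fun i _ => ?_
    rw [← Real.rpow_natCast, ← Real.rpow_natCast, ← Real.rpow_mul (by positivity),
      ← Real.rpow_mul (by positivity), mul_comm]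
  rw [h1]
  exact sum_ideals_le σ hs _

lemma sum_places_le {σ : ℝ} (hσ : 0 < σ)
    (hs : Summable fun n : ℕ => (idn K n : ℝ) * (n : ℝ) ^ (-σ))
    (S : Finset (HeightOneSpectrum (𝓞 K))) :
    Real.exp (∑ v ∈ S, (nm v : ℝ) ^ (-σ)) ≤ ∑' n : ℕ, (idn K n : ℝ) * (n : ℝ) ^ (-σ) := by
  have hx : ∀ v : HeightOneSpectrum (𝓞 K), (nm v : ℝ) ^ (-σ) < 1 := by
    intro v
    exact Real.rpow_lt_one_of_one_lt_of_neg (by exact_mod_cast one_lt_nm v) (by linarith)
  have hx0 : ∀ v : HeightOneSpectrum (𝓞 K), 0 ≤ (nm v : ℝ) ^ (-σ) := fun v => by positivity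
  have hlim : Tendsto (fun M : ℕ => ∏ i : S, ∑ k ∈ Finset.range M, ((nm i.1 : ℝ) ^ (-σ)) ^ k) atTop
      (𝓝 (∏ i : S, (1 - (nm i.1 : ℝ) ^ (-σ))⁻¹)) :=
    tendsto_finsetProd _ fun i _ => (hasSum_geometric_of_lt_one (hx0 _) (hx _)).tendsto_sum_nat
  have h1 := le_of_tendsto' hlim fun M => prod_geom_le σ hs S M
  refine le_trans ?_ h1
  rw [Real.exp_sum, ← Finset.prod_coe_sort]
  refine Finset.prod_le_prod (fun _ _ => (Real.exp_pos _).le) fun i _ => ?_
  have h2 : 0 < 1 - (nm i.1 : ℝ) ^ (-σ) := by linarith [hx i.1]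
  rw [le_inv_comm₀ (Real.exp_pos _) h2, ← Real.exp_neg]
  linarith [Real.add_one_le_exp (-((nm i.1 : ℝ) ^ (-σ)))]

lemma dedekindZeta_eq {σ : ℝ} (hσ : 0 < σ) : dedekindZeta K (σ : ℂ) =
    ((∑' n : ℕ, (idn K n : ℝ) * (n : ℝ) ^ (-σ) : ℝ) : ℂ) := by
  rw [dedekindZeta, LSeries, Complex.ofReal_tsum]
  refine tsum_congr fun n => ?_
  rw [LSeries.term_def]
  split_ifs with h
  · subst h
    rw [Nat.cast_zero, Real.zero_rpow (by simpa using hσ.ne')]
    simp
  · push_cast
    rw [Complex.ofReal_cpow (by positivity)]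
    push_cast
    rw [Complex.cpow_neg, div_eq_mul_inv]
    rfl

theorem place_sum_le (K : Type*) [Field K] [NumberField K] : ∃ C : ℝ, ∀ᶠ η : ℝ in 𝓝[>] 0,
    Summable (fun v : HeightOneSpectrum (𝓞 K) => (nm v : ℝ) ^ (-(1 + η))) ∧
    ∑' v : HeightOneSpectrum (𝓞 K), (nm v : ℝ) ^ (-(1 + η)) ≤ Real.log (1 / η) + C := by
  set ρ := dedekindZeta_residue K with hρ
  have hρ0 : 0 < ρ := dedekindZeta_residue_pos K
  have h1 : Tendsto (fun η : ℝ => 1 + η) (𝓝[>] 0) (𝓝[>] 1) := by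
    refine tendsto_nhdsWithin_iff.mpr ⟨?_, ?_⟩
    · have : Tendsto (fun η : ℝ => 1 + η) (𝓝 0) (𝓝 (1 + 0)) := Continuous.tendsto (by fun_prop) 0
      rw [add_zero] at this
      exact this.mono_left nhdsWithin_le_nhds
    · filter_upwards [self_mem_nhdsWithin] with η hη
      have : (0 : ℝ) < η := hη
      simpa using this
  have h2 := (tendsto_sub_one_mul_dedekindZeta_nhdsGT K).comp h1
  have h3 := h2.norm
  have hn : ‖((dedekindZeta_residue K : ℝ) : ℂ)‖ = ρ := by
    rw [Complex.norm_real, Real.norm_eq_abs, abs_of_pos hρ0]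
  rw [hn] at h3
  refine ⟨Real.log (ρ + 1), ?_⟩
  filter_upwards [h3.eventually_lt_const (lt_add_one ρ), h3.eventually_const_lt hρ0,
    self_mem_nhdsWithin] with η hη1 hη2 hη
  have hη0 : (0 : ℝ) < η := hη
  have hσ : (0 : ℝ) < 1 + η := by linarith
  simp only [Function.comp_apply] at hη1 hη2
  rw [dedekindZeta_eq hσ] at hη1 hη2
  set Z := ∑' n : ℕ, (idn K n : ℝ) * (n : ℝ) ^ (-(1 + η)) with hZ
  have hZ0 : 0 ≤ Z := tsum_nonneg fun n => by positivity
  have e : ‖(((1 + η : ℝ) : ℂ) - 1) * ((Z : ℝ) : ℂ)‖ = η * Z := by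
    rw [norm_mul, Complex.norm_real, Real.norm_eq_abs, abs_of_nonneg hZ0]
    congr 1
    push_cast
    rw [add_sub_cancel_left, Complex.norm_real, Real.norm_eq_abs, abs_of_pos hη0]
  rw [e] at hη1 hη2
  have hsum : Summable fun n : ℕ => (idn K n : ℝ) * (n : ℝ) ^ (-(1 + η)) := by
    by_contra hcon
    rw [hZ, tsum_eq_zero_of_not_summable hcon, mul_zero] at hη2
    exact lt_irrefl _ hη2
  have hZpos : 0 < Z := by
    by_contra hcon
    push Not at hcon
    nlinarith
  have hle : Z ≤ (1 / η) * (ρ + 1) := by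
    rw [one_div, inv_mul_eq_div, le_div_iff₀ hη0]
    linarith
  have hfin : ∀ S : Finset (HeightOneSpectrum (𝓞 K)), ∑ v ∈ S, (nm v : ℝ) ^ (-(1 + η)) ≤
      Real.log (1 / η) + Real.log (ρ + 1) := by
    intro S
    have h4 := sum_places_le hσ hsum S
    rw [← Real.log_mul (by positivity) (by positivity)]
    rw [Real.le_log_iff_exp_le (by positivity)]
    exact h4.trans hle
  have hs : Summable (fun v : HeightOneSpectrum (𝓞 K) => (nm v : ℝ) ^ (-(1 + η))) :=
    summable_of_sum_le (fun v => by positivity) hfin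
  exact ⟨hs, hs.tsum_le_of_sum_le hfin⟩

end Pool.Agent.Lib.MP_bf61d2_nt.Edge
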